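import Mathlib
import Pool.Agent.H922R2.OPC.Stubs

set_option autoImplicit false

open MvPolynomial

namespace Pool.Agent.H871R2.OPCDIM

open Pool.Agent.H922R2.OPC

section abs

variable {k : Type} [Field k]

lemma ge_iff (w : ℤ) (g : LaurentSeries k) : Ge w g ↔ (g = 0 ∨ w ≤ g.order) := by
  constructor
  · intro h
    by_cases hg : g = 0
    · exact Or.inl hg
    · right
      by_contra hc
      push Not at hc
      exact hg (HahnSeries.coeff_order_eq_zero.1 (h _ hc))
  · rintro (rfl | h)
    · intro i _; simp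
    · intro i hi
      exact HahnSeries.coeff_eq_zero_of_lt_order (lt_of_lt_of_le hi h)

/-- series with pole of order at most `m` -/
def G (k : Type) [Field k] (m : ℕ) : Submodule k (HahnSeries ℤ k) where
  carrier := {g | Ge (-(m : ℤ)) g}
  add_mem' := by
    intro a b ha hb i hi
    rw [HahnSeries.coeff_add, ha i hi, hb i hi, add_zero]
  zero_mem' := by intro i _; simp
  smul_mem' := by
    intro c a ha i hi
    rw [HahnSeries.coeff_smul, ha i hi, smul_zero]

variable {B : Type} [CommRing B] [Algebra k B] (s : B →ₗ[k] HahnSeries ℤ k)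

noncomputable def V (m : ℕ) : Submodule k (HahnSeries ℤ k) := LinearMap.range s ⊓ G k m

lemma mem_V (m : ℕ) (g : HahnSeries ℤ k) : g ∈ V s m ↔ (∃ p, s p = g) ∧ Ge (-(m : ℤ)) g := by
  unfold V
  rw [Submodule.mem_inf, LinearMap.mem_range]
  rfl

/-- the coefficients `-m, ..., 0` -/
noncomputable def cf (m : ℕ) : V s m →ₗ[k] (Fin (m + 1) → k) where
  toFun g i := g.1.coeff (-(i.1 : ℤ))
  map_add' := by intro a b; ext i; simp
  map_smul' := by intro a b; ext i; simp

lemma cf_inj (h0 : ∀ p, Ge 1 (s p) → s p = 0) (m : ℕ) : Function.Injective (cf s m) := by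
  rw [← LinearMap.ker_eq_bot, LinearMap.ker_eq_bot']
  rintro ⟨g, hg⟩ h
  obtain ⟨⟨p, rfl⟩, hg2⟩ := (mem_V s m g).1 hg
  have h1 : s p = 0 := by
    apply h0
    intro i hi
    by_cases h2 : i < -(m : ℤ)
    · exact hg2 i h2
    · push Not at h2
      have h3 := congrFun h ⟨(-i).toNat, by omega⟩
      simp only [cf, LinearMap.coe_mk, AddHom.coe_mk, Pi.zero_apply] at h3
      rw [← h3]; congr 1; omega
  exact Subtype.ext h1

lemma V_fin (h0 : ∀ p, Ge 1 (s p) → s p = 0) (m : ℕ) : Module.Finite k (V s m) :=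
  Module.Finite.of_injective _ (cf_inj s h0 m)

lemma V_le (h0 : ∀ p, Ge 1 (s p) → s p = 0) (m : ℕ) : Module.finrank k (V s m) ≤ m + 1 := by
  have := LinearMap.finrank_le_finrank_of_injective (cf_inj s h0 m)
  simpa using this

variable (I : Ideal B) (hker : ∀ p, s p = 0 → p ∈ I)

/-- the map to the quotient -/
noncomputable def Psi : LinearMap.range s →ₗ[k] (B ⧸ I) :=
  ((LinearMap.ker s).liftQ (Ideal.Quotient.mkₐ k I).toLinearMap (by
    intro p hp
    rw [LinearMap.mem_ker] at hp ⊢
    exact Ideal.Quotient.eq_zero_iff_mem.2 (hker p hp))) ∘ₗ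
    (s.quotKerEquivRange.symm : _ ≃ₗ[k] _).toLinearMap

lemma Psi_apply (p : B) (hp : s p ∈ LinearMap.range s) :
    Psi s I hker ⟨s p, hp⟩ = Ideal.Quotient.mk I p := by
  have h1 : s.quotKerEquivRange.symm ⟨s p, hp⟩ =
      Submodule.Quotient.mk p := by
    rw [LinearEquiv.symm_apply_eq]
    rfl
  unfold Psi
  rw [LinearMap.comp_apply]
  erw [h1]
  rfl

/-- restricted to `V (m)` -/
noncomputable def PsiV (m : ℕ) : V s m →ₗ[k] (B ⧸ I) :=
  (Psi s I hker) ∘ₗ Submodule.inclusion inf_le_left

lemma PsiV_apply (m : ℕ) (p : B) (hp : s p ∈ V s m) :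
    PsiV s I hker m ⟨s p, hp⟩ = Ideal.Quotient.mk I p :=
  Psi_apply s I hker p _

/-- orders add up -/
lemma ge_mul_iff (g r : HahnSeries ℤ k) (d : ℕ) (m : ℕ) (hg : Ge (-(d : ℤ)) g)
    (hg' : g.coeff (-(d : ℤ)) ≠ 0) : Ge (-((m + d : ℕ) : ℤ)) (g * r) ↔ Ge (-(m : ℤ)) r := by
  have hg0 : g ≠ 0 := by
    rintro rfl; simp at hg'
  have ho : g.order = -(d : ℤ) := by
    apply le_antisymm
    · exact HahnSeries.order_le_of_coeff_ne_zero hg'
    · rcases (ge_iff _ _).1 hg with h | h
      · exact absurd h hg0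
      · exact h
  rw [ge_iff, ge_iff]
  by_cases hr : r = 0
  · simp [hr]
  · rw [HahnSeries.order_mul hg0 hr, ho]
    simp only [mul_eq_zero, hg0, hr, false_or, or_false]
    push_cast
    constructor <;> intro h <;> linarith

variable {I} {hker}

/-- multiplication by `s h` as a map from `V m` to the kernel -/
noncomputable def io (hmul : ∀ a b, s (a * b) = s a * s b) (h : B) (hh : h ∈ I) (d m : ℕ)
    (hg : Ge (-(d : ℤ)) (s h)) (hg' : (s h).coeff (-(d : ℤ)) ≠ 0) :
    V s m →ₗ[k] LinearMap.ker (PsiV s I hker (m + d)) where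
  toFun r := ⟨⟨s h * r.1, by
      obtain ⟨⟨p, hp⟩, h2⟩ := (mem_V s m r.1).1 r.2
      exact (mem_V s (m + d) _).2 ⟨⟨h * p, by rw [hmul, hp]⟩,
        (ge_mul_iff _ _ d m hg hg').2 h2⟩⟩, by
      obtain ⟨r, hr⟩ := r
      obtain ⟨⟨p, rfl⟩, h2⟩ := (mem_V s m r).1 hr
      rw [LinearMap.mem_ker]
      have : PsiV s I hker (m + d) ⟨s (h * p), by
          rw [hmul]
          exact (mem_V s (m + d) _).2 ⟨⟨h * p, by rw [hmul]⟩,
            (ge_mul_iff _ _ d m hg hg').2 h2⟩⟩ = 0 := by
        rw [PsiV_apply, Ideal.Quotient.eq_zero_iff_mem]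
        exact I.mul_mem_right _ hh
      rw [← this]
      congr 1
      exact Subtype.ext (hmul _ _).symm⟩
  map_add' := by
    intro a b
    apply Subtype.ext; apply Subtype.ext
    simp [mul_add]
  map_smul' := by
    intro c a
    apply Subtype.ext; apply Subtype.ext
    show s h * (c • a.1) = c • (s h * a.1)
    rw [← HahnSeries.C_mul_eq_smul, ← HahnSeries.C_mul_eq_smul, mul_left_comm]

lemma io_bij (hmul : ∀ a b, s (a * b) = s a * s b) (f h : B) (hI : I = Ideal.span {f, h})
    (hf : s f = 0) (hh : h ∈ I) (d m : ℕ)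
    (hg : Ge (-(d : ℤ)) (s h)) (hg' : (s h).coeff (-(d : ℤ)) ≠ 0) :
    Function.Bijective (io (hker := hker) s hmul h hh d m hg hg') := by
  have hg0 : s h ≠ 0 := by
    intro h0; rw [h0] at hg'; simp at hg'
  constructor
  · rintro ⟨a, ha⟩ ⟨b, hb⟩ hab
    have h1 := congrArg (fun z => z.1.1) hab
    simp only [io, LinearMap.coe_mk, AddHom.coe_mk] at h1
    exact Subtype.ext (mul_left_cancel₀ hg0 h1)
  · rintro ⟨⟨r, hr⟩, hk⟩
    obtain ⟨⟨p, rfl⟩, h2⟩ := (mem_V s (m + d) r).1 hr
    rw [LinearMap.mem_ker, PsiV_apply, Ideal.Quotient.eq_zero_iff_mem, hI,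
      Ideal.mem_span_pair] at hk
    obtain ⟨a, b, rfl⟩ := hk
    have e : s (a * f + b * h) = s h * s b := by
      rw [map_add, hmul, hmul, hf, mul_zero, zero_add, mul_comm]
    have h3 : Ge (-(m : ℤ)) (s b) := by
      rw [e] at h2
      exact (ge_mul_iff _ _ d m hg hg').1 h2
    refine ⟨⟨s b, (mem_V s m _).2 ⟨⟨b, rfl⟩, h3⟩⟩, ?_⟩
    apply Subtype.ext; apply Subtype.ext
    exact e.symm

/-- the dimension formula -/
lemma dim_step (h0 : ∀ p, Ge 1 (s p) → s p = 0) (hmul : ∀ a b, s (a * b) = s a * s b)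
    (f h : B) (hI : I = Ideal.span {f, h})
    (hf : s f = 0) (hh : h ∈ I) (d m : ℕ)
    (hg : Ge (-(d : ℤ)) (s h)) (hg' : (s h).coeff (-(d : ℤ)) ≠ 0) :
    Module.finrank k (V s (m + d)) = Module.finrank k (V s m) +
      Module.finrank k (LinearMap.range (PsiV s I hker (m + d))) := by
  have := V_fin s h0 (m + d)
  rw [← LinearMap.finrank_range_add_finrank_ker (PsiV s I hker (m + d)), add_comm]
  congr 1
  exact (LinearEquiv.finrank_eq (LinearEquiv.ofBijective _
    (io_bij (hker := hker) s hmul f h hI hf hh d m hg hg'))).symm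

lemma abs_main (h0 : ∀ p, Ge 1 (s p) → s p = 0) (hmul : ∀ a b, s (a * b) = s a * s b)
    (f h : B) (hI : I = Ideal.span {f, h}) (hker : ∀ p, s p = 0 → p ∈ I)
    (hf : s f = 0) (c d e : ℕ) (hlow : ∀ m, m ≤ Module.finrank k (V s m) + c)
    (hfin : Module.Finite k (B ⧸ I)) (he : Module.finrank k (B ⧸ I) = e)
    (hg : Ge (-(d : ℤ)) (s h)) (hg' : (s h).coeff (-(d : ℤ)) ≠ 0) : d = e := by
  have hh : h ∈ I := by rw [hI]; exact Ideal.subset_span (by simp)
  have hst := fun m => dim_step (hker := hker) s h0 hmul f h hI hf hh d m hg hg'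
  -- upper bound for the growth
  have hup : ∀ m, Module.finrank k (V s (m + d)) ≤ Module.finrank k (V s m) + e := by
    intro m
    rw [hst m, ← he]
    have := Submodule.finrank_le (LinearMap.range (PsiV s I hker (m + d)))
    omega
  have hup' : ∀ N, Module.finrank k (V s (N * d)) ≤ Module.finrank k (V s 0) + N * e := by
    intro N
    induction N with
    | zero => rw [zero_mul, zero_mul, add_zero]
    | succ N ih =>
      have h1 := hup (N * d)
      have h2 : (N + 1) * d = N * d + d := by ring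
      have h3 : (N + 1) * e = N * e + e := by ring
      rw [h2, h3]; omega
  -- for large `m` the growth is exactly `e`
  obtain ⟨m0, hm0⟩ : ∃ m0, ∀ m, m0 ≤ m → LinearMap.range (PsiV s I hker (m + d)) = ⊤ := by
    classical
    obtain ⟨S, hS⟩ := hfin.fg_top
    have h1 : ∀ w : B ⧸ I, ∃ (p : B) (M : ℕ), Ideal.Quotient.mk I p = w ∧ Ge (-(M : ℤ)) (s p) := by
      intro w
      obtain ⟨p, hp⟩ := Ideal.Quotient.mk_surjective w
      refine ⟨p, (-(s p).order).toNat, hp, ?_⟩
      rw [ge_iff]
      right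
      omega
    choose P M hPM using h1
    refine ⟨S.sup M, fun m hm => ?_⟩
    rw [eq_top_iff, ← hS, Submodule.span_le]
    intro w hw
    have h2 : M w ≤ m := le_trans (Finset.le_sup hw) hm
    have h3 : s (P w) ∈ V s (m + d) := by
      refine (mem_V s _ _).2 ⟨⟨_, rfl⟩, fun i hi => (hPM w).2 i ?_⟩
      push_cast at hi
      omega
    exact ⟨⟨s (P w), h3⟩, by rw [PsiV_apply]; exact (hPM w).1⟩
  have hex : ∀ N, Module.finrank k (V s (m0 + N * d)) = Module.finrank k (V s m0) + N * e := by
    intro N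
    induction N with
    | zero => rw [zero_mul, zero_mul, add_zero, add_zero]
    | succ N ih =>
      have h2 : m0 + (N + 1) * d = (m0 + N * d) + d := by ring
      have h3 : (N + 1) * e = N * e + e := by ring
      rw [h2, hst, hm0 _ (by omega), finrank_top, he, ih, h3]; ring
  apply le_antisymm
  · -- `d ≤ e`
    by_contra hc
    push Not at hc
    have h1 := hup' (Module.finrank k (V s 0) + c + 1)
    have h2 := hlow ((Module.finrank k (V s 0) + c + 1) * d)
    nlinarith
  · by_contra hc
    push Not at hc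
    have h1 := hex (m0 + 2)
    have h2 := V_le s h0 (m0 + (m0 + 2) * d)
    nlinarith

end abs


section low

variable {k : Type} [Field k]

lemma ge_pow (hMUL : S_MUL) (g : LaurentSeries k) (u : ℤ) (hg : Ge u g) (i : ℕ) :
    Ge (i * u) (g ^ i) := by
  induction i with
  | zero =>
    intro j hj
    rw [pow_zero, HahnSeries.coeff_one, if_neg (by
      push_cast at hj; omega)]
  | succ i ih =>
    have := (hMUL k _ _ _ _ ih hg).1
    rw [pow_succ]
    convert this using 1
    push_cast; ring

/-- the isomorphism with `k[x][y]` -/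
noncomputable def th (k : Type) [Field k] : B k →ₐ[k] Polynomial (Polynomial k) :=
  aeval ![Polynomial.C Polynomial.X, Polynomial.X]

lemma th_aeval (q : Polynomial k) : th k (Polynomial.aeval (X 0) q) = Polynomial.C q := by
  rw [← Polynomial.aeval_algHom_apply]
  have h1 : th k (X 0) = Polynomial.C Polynomial.X := by simp [th]
  rw [h1]
  induction q using Polynomial.induction_on' with
  | add p q hp hq => rw [map_add, hp, hq, map_add]
  | monomial n a =>
    rw [Polynomial.aeval_monomial, ← Polynomial.C_mul_X_pow_eq_monomial, map_mul, map_pow]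
    rfl

/-- the polynomial with coefficients `c` -/
noncomputable def pc {n M : ℕ} (c : Fin n × Fin M → k) : B k :=
  ∑ z : Fin n × Fin M, c z • (X 0 ^ (z.2 : ℕ) * X 1 ^ (z.1 : ℕ))

lemma pc_dvd {n M : ℕ} (a : ℕ → Polynomial k) (f : B k)
    (hf : f = X 1 ^ n + ∑ j ∈ Finset.range n, Polynomial.aeval (X 0) (a j) * X 1 ^ j)
    (c : Fin n × Fin M → k) (hd : f ∣ pc c) : c = 0 := by
  have hthf : th k f = Polynomial.X ^ n +
      ∑ j ∈ Finset.range n, Polynomial.C (a j) * Polynomial.X ^ j := by
    rw [hf, map_add, map_sum, map_pow]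
    simp only [map_mul, th_aeval, map_pow]
    simp [th]
  have hthp : th k (pc c) = ∑ z : Fin n × Fin M,
      Polynomial.C (Polynomial.monomial (z.2 : ℕ) (c z)) * Polynomial.X ^ (z.1 : ℕ) := by
    unfold pc
    rw [map_sum]
    refine Finset.sum_congr rfl fun z _ => ?_
    rw [smul_eq_C_mul, map_mul, map_mul, map_pow, map_pow, ← Polynomial.C_mul_X_pow_eq_monomial,
      map_mul, map_pow]
    have h1 : th k (C (c z)) = Polynomial.C (Polynomial.C (c z)) := by
      unfold th; rw [aeval_C]; rfl
    have h2 : th k (X 0) = Polynomial.C Polynomial.X := by simp [th]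
    have h3 : th k (X 1) = Polynomial.X := by simp [th]
    rw [h1, h2, h3, mul_assoc]
  have hdeg : (∑ j ∈ Finset.range n, Polynomial.C (a j) * Polynomial.X ^ j : Polynomial (Polynomial k)).degree < n := by
    rw [Polynomial.degree_lt_iff_coeff_zero]
    intro l hl
    rw [Polynomial.finsetSum_coeff]
    refine Finset.sum_eq_zero fun j hj => ?_
    rw [Polynomial.coeff_C_mul, Polynomial.coeff_X_pow, if_neg, mul_zero]
    have := Finset.mem_range.1 hj
    omega
  have hmon : (th k f).Monic := by
    rw [hthf]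
    exact Polynomial.monic_X_pow_add hdeg
  have hdegf : (th k f).degree = n := by
    rw [hthf, Polynomial.degree_add_eq_left_of_degree_lt, Polynomial.degree_X_pow]
    rw [Polynomial.degree_X_pow]; exact hdeg
  have hdegp : (th k (pc c)).degree < n := by
    rw [hthp, Polynomial.degree_lt_iff_coeff_zero]
    intro l hl
    rw [Polynomial.finsetSum_coeff]
    refine Finset.sum_eq_zero fun z _ => ?_
    rw [Polynomial.coeff_C_mul, Polynomial.coeff_X_pow, if_neg, mul_zero]
    have := z.1.2
    omega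
  have h0 : th k (pc c) = 0 := by
    by_contra hne
    exact hmon.not_dvd_of_degree_lt hne (by rw [hdegf]; exact hdegp) (map_dvd (th k) hd)
  funext z
  have h1 := congrArg (fun p => (p.coeff (z.1 : ℕ)).coeff (z.2 : ℕ)) h0
  simp only [hthp, Polynomial.finsetSum_coeff, Polynomial.coeff_C_mul, Polynomial.coeff_X_pow,
    mul_ite, mul_one, mul_zero, apply_ite (fun p : Polynomial k => p.coeff (z.2 : ℕ)),
    Polynomial.coeff_monomial, Polynomial.coeff_zero] at h1
  rw [Finset.sum_eq_single z] at h1
  · simpa using h1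
  · rintro ⟨w1, w2⟩ - hne
    by_cases h2 : (z.1 : ℕ) = w1
    · rw [if_pos h2, if_neg]
      intro h3
      exact hne (Prod.ext (Fin.ext h2.symm) (Fin.ext h3))
    · rw [if_neg h2]
  · intro h; exact absurd (Finset.mem_univ z) h

end low

section dim
variable (k : Type) [Field k] [IsAlgClosed k] [CharZero k]

theorem dim : S_DIM k := by
  intro hMUL hSPR n f φ ζ hOP hMON hk h0 h d hfin hd hne
  obtain ⟨R0, hR0⟩ := hSPR 0
  obtain ⟨a, hf⟩ := hMON n f φ ζ hOP
  rw [C_0, sub_zero] at hk
  -- the linear map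
  have hsm : ∀ (c : k) (p : B k), sp 0 (ev n φ (c • p)) = c • sp 0 (ev n φ p) := by
    intro c p
    have h1 : sp 0 (ev n φ (C c)) = HahnSeries.C c := by
      have h2 : ev n φ (C c) = HahnSeries.C (Polynomial.C c) := by
        unfold ev
        rw [aeval_C, HahnSeries.algebraMap_apply', PowerSeries.algebraMap_apply,
          HahnSeries.ofPowerSeries_C]
        rfl
      rw [h2]
      ext i
      simp only [sp, HahnSeries.map_coeff, HahnSeries.C_apply]
      by_cases hi : i = 0
      · subst hi; simp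
      · rw [HahnSeries.coeff_single_of_ne hi, HahnSeries.coeff_single_of_ne hi, map_zero]
    rw [smul_eq_C_mul, map_mul, ← hR0, map_mul, hR0, hR0, h1, HahnSeries.C_mul_eq_smul]
  let s : B k →ₗ[k] HahnSeries ℤ k :=
    { toFun := fun p => sp 0 (ev n φ p)
      map_add' := fun p q => by rw [map_add, ← hR0, map_add, hR0, hR0]
      map_smul' := fun c p => hsm c p }
  have hs : ∀ p, s p = sp 0 (ev n φ p) := fun p => rfl
  have hmul : ∀ p q, s (p * q) = s p * s q := by
    intro p q
    rw [hs, hs, hs, map_mul, ← hR0, map_mul, hR0, hR0]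
  have h0' : ∀ p, Ge 1 (s p) → s p = 0 := fun p hp => h0 p hp
  have hsf : s f = 0 := (hk f).2 dvd_rfl
  have hker : ∀ p, s p = 0 → p ∈ Ideal.span {f, h} := by
    intro p hp
    obtain ⟨q, rfl⟩ := (hk p).1 hp
    exact Ideal.mul_mem_right _ _ (Ideal.subset_span (by simp))
  have hlow : ∃ c, ∀ m, m ≤ Module.finrank k (V s m) + c := by
    have hx : Ge (-(n : ℤ)) (s (X 0)) := by
      intro i hi
      rw [hs]
      simp only [ev, aeval_X, sp, tp, HahnSeries.map_coeff]
      simp only [Matrix.cons_val_zero]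
      rw [HahnSeries.coeff_single_of_ne (by omega), map_zero]
    obtain ⟨q, hq⟩ : ∃ q : ℕ, Ge (-(q : ℤ)) (s (X 1)) :=
      ⟨(-(s (X 1)).order).toNat, (ge_iff _ _).2 (Or.inr (by omega))⟩
    have hRs : ∀ i j : ℕ, s (X 0 ^ i * X 1 ^ j) = s (X 0) ^ i * s (X 1) ^ j := by
      intro i j
      rw [hs, hs, hs, map_mul, map_pow, map_pow, ← hR0, map_mul, map_pow, map_pow, hR0, hR0]
    have hn : 0 < n := hOP.1
    refine ⟨n * q, fun m => ?_⟩
    by_cases hm : m < n * q
    · omega
    push Not at hm
    have hfinV := V_fin s h0' m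
    set M := (m - n * q) / n + 1 with hM
    let T : (Fin n × Fin M → k) →ₗ[k] V s m :=
      { toFun := fun c => ⟨s (pc c), by
          refine (mem_V s m _).2 ⟨⟨_, rfl⟩, ?_⟩
          have hG : s (pc c) ∈ G k m := by
            unfold pc
            rw [map_sum]
            refine Submodule.sum_mem _ fun z _ => ?_
            rw [map_smul]
            refine Submodule.smul_mem _ _ ?_
            rw [hRs]
            have h1 := (hMUL k _ _ _ _ (ge_pow hMUL _ _ hx (z.2 : ℕ))
              (ge_pow hMUL _ _ hq (z.1 : ℕ))).1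
            intro i hi
            refine h1 i (lt_of_lt_of_le hi ?_)
            have hz1 : (z.1 : ℕ) * q ≤ n * q := Nat.mul_le_mul_right q z.1.2.le
            have hz2 : (z.2 : ℕ) * n ≤ m - n * q := by
              have hz3 : (z.2 : ℕ) ≤ (m - n * q) / n := by
                have := z.2.2
                omega
              calc (z.2 : ℕ) * n ≤ (m - n * q) / n * n := Nat.mul_le_mul_right n hz3
                _ ≤ m - n * q := Nat.div_mul_le_self _ _
            have hz4 : (z.2 : ℕ) * n + (z.1 : ℕ) * q ≤ m := by omega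
            have hz5 : ((z.2 : ℕ) : ℤ) * n + ((z.1 : ℕ) : ℤ) * q ≤ m := by exact_mod_cast hz4
            linarith
          exact hG⟩
        map_add' := by
          intro c c'
          apply Subtype.ext
          show s (pc (c + c')) = s (pc c) + s (pc c')
          rw [← map_add]; congr 1
          simp only [pc, Pi.add_apply, add_smul, Finset.sum_add_distrib]
        map_smul' := by
          intro c c'
          apply Subtype.ext
          show s (pc (c • c')) = c • s (pc c')
          rw [← map_smul]; congr 1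
          simp only [pc, Pi.smul_apply, smul_eq_mul, mul_smul, Finset.smul_sum] }
    have hT : Function.Injective T := by
      rw [← LinearMap.ker_eq_bot, LinearMap.ker_eq_bot']
      intro c hc
      have h1 : s (pc c) = 0 := congrArg Subtype.val hc
      exact pc_dvd a f hf c ((hk _).1 h1)
    have h2 := LinearMap.finrank_le_finrank_of_injective hT
    rw [Module.finrank_fintype_fun_eq_card, Fintype.card_prod, Fintype.card_fin,
      Fintype.card_fin] at h2
    have h3 : m - n * q < n * M := by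
      rw [hM, mul_add, mul_one]
      have := Nat.div_add_mod (m - n * q) n
      have := Nat.mod_lt (m - n * q) hn
      omega
    omega
  obtain ⟨c, hc⟩ := hlow
  -- the order of `s h`
  have ho : (s h).order ≤ 0 := by
    by_contra hcon
    push Not at hcon
    exact hne (h0 h ((ge_iff 1 (s h)).2 (Or.inr (by omega))))
  obtain ⟨d0, hd0⟩ : ∃ d0 : ℕ, (s h).order = -(d0 : ℤ) := ⟨(-(s h).order).toNat, by omega⟩
  have hg : Ge (-(d0 : ℤ)) (s h) := (ge_iff _ _).2 (Or.inr hd0.ge)
  have hg' : (s h).coeff (-(d0 : ℤ)) ≠ 0 := by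
    rw [← hd0]
    exact fun hz => hne (HahnSeries.coeff_order_eq_zero.1 hz)
  have := abs_main (I := Ideal.span {f, h}) s h0' hmul f h rfl hker hsf c d0 d hc hfin hd hg hg'
  subst this
  exact ⟨hg, hg'⟩

end dim

end Pool.Agent.H871R2.OPCDIM
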